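import Mathlib
import Pool.Agent.H57.Psi

set_option autoImplicit false

open Cardinal Pool.Agent.H57.Psi

namespace Pool.Agent.Results.MP_a1c723_lc.SmallScale

/-- If `𝔟 = cov(M) = ℵ₁ < 𝔡`, there is a star-Rothberger `Ψ`-space as asked for in Q1. -/
theorem result (hb : bNum = ℵ₁) (hc : covM = ℵ₁) (hd : ℵ₁ < dNum) :
    ∃ (k : Cardinal.{0}) (A : Set (Set ℕ)), AD A ∧ Cardinal.mk A = k ∧ covM ≤ k ∧
      cofCount k = k ∧ StarRothberger (Psi A) := by
  obtain ⟨A, h1, h2, h3⟩ := main hb hd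
  exact ⟨ℵ₁, A, h1, h2, hc.le, cof_one, h3⟩

end Pool.Agent.Results.MP_a1c723_lc.SmallScale
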